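import Pool.Agent.helper75.VQ.SpecU
import Pool.Agent.helper75.VQ.PIV

/-!
# Project VQ (MP_07c750_an), row PRV: one frequency
-/

set_option autoImplicit false

open scoped MatrixGroups ContDiff Topology UpperHalfPlane ComplexConjugate ENNReal
open UpperHalfPlane MeasureTheory Filter Set

namespace Pool.Agent.VQ

open Pool.Agent.RS
open Pool.Agent.RPQ (CEig mean VV IsOp IsMul OProj wrd PJ nst mks MO Net Cl CkB PN upd Eqd)

theorem PRV_fin (b L n : ℕ) : (AdZ b L n).Finite := by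
  have h1 : ({c : List (Fin n) | c.length = L}).Finite := List.finite_length_eq (Fin n) L
  refine (h1.image (fun c => c.map (fun x : Fin n => b * (x : ℕ) + (b - 1)))).subset ?_
  rintro l ⟨c, hc, hx, rfl⟩
  refine ⟨c.pmap (fun x hx => (⟨x, hx⟩ : Fin n)) hx, ?_, ?_⟩
  · simp only [Set.mem_ofPred_eq, List.length_pmap]
    exact hc
  · show List.map (fun x : Fin n => b * (x : ℕ) + (b - 1)) (c.pmap (fun x hx => (⟨x, hx⟩ : Fin n)) hx) =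
      c.map (fun x => b * x + (b - 1))
    rw [List.map_pmap]
    exact List.pmap_eq_map (f := fun x : ℕ => b * x + (b - 1)) hx

theorem PRV_ne {b L n : ℕ} (hL : 1 ≤ L) {l : List ℕ} (hl : l ∈ AdZ b L n) : l ≠ [] := by
  obtain ⟨c, hc, -, rfl⟩ := hl
  intro h
  rw [List.map_eq_nil_iff] at h
  rw [h, List.length_nil] at hc
  omega

theorem PRV_inv {Γ : Subgroup SL(2, ℝ)} {J : ℕ} {χ : Fin J → ℍ → ℝ} (hχ : ∀ j, QU.Inv Γ (χ j)) (ξ : Fin J → ℝ) (W : ℍ → ℝ) (hW : QU.Inv Γ W) (s : ℝ) :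
    QU.Inv Γ (fun z => W z + s * VV χ ξ z) := by
  constructor
  · unfold VV
    exact hW.1.add (continuous_const.mul (continuous_finsetSum _ fun j _ => continuous_const.mul (hχ j).1))
  · intro γ z
    show W (γ • z) + s * VV χ ξ (γ • z) = W z + s * VV χ ξ z
    have h : VV χ ξ (γ • z) = VV χ ξ z := by
      unfold VV
      exact Finset.sum_congr rfl fun j _ => by rw [(hχ j).2 γ z]
    rw [hW.2 γ z, h]

theorem PRV_cont (Γ : Subgroup SL(2, ℝ)) (δ : ℝ) (B : ℕ → ℝ) (D : Dyn) (hD : OKD Γ δ B D) (E : ℝ) (g : SL(2, ℝ)) (f : ℍ → ℝ)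
    (hf : Continuous f) : Continuous fun s : ℝ => D.U (D.fl E s g • I) * f (D.fl E s g • I) := by
  by_cases hE : |E| ≤ 1 / 8
  · exact PIV_cont Γ δ B D hD E hE g f hf
  · have h : ∀ s, D.fl E s g = g := fun s => (hD.out E s g (not_le.mp hE)).1
    simp only [h]
    exact continuous_const

theorem PRV_lin (Γ : Subgroup SL(2, ℝ)) (δ : ℝ) (B : ℕ → ℝ) (D : Dyn) (hD : OKD Γ δ B D) {J : ℕ} (χ : Fin J → ℍ → ℝ) (hχ : ∀ j, Continuous (χ j)) (ξ : Fin J → ℝ)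
    (W : ℍ → ℝ) (hW : Continuous W) (R s t : ℝ) (p : SL(2, ℝ) × ℝ) :
    thP D (fun z => W z + s * VV χ ξ z) R t p = thP D W R t p - ∑ a, ξ a * thP D (χ a) (-(R * s)) t p := by
  unfold thP VV
  have e1 : ∀ x : ℝ, D.U (D.fl p.2 x p.1 • I) * (W (D.fl p.2 x p.1 • I) + s * ∑ j, ξ j * χ j (D.fl p.2 x p.1 • I)) =
      D.U (D.fl p.2 x p.1 • I) * W (D.fl p.2 x p.1 • I) + ∑ j, (s * ξ j) * (D.U (D.fl p.2 x p.1 • I) * χ j (D.fl p.2 x p.1 • I)) := by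
    intro x
    rw [mul_add, Finset.mul_sum, Finset.mul_sum]
    congr 1
    exact Finset.sum_congr rfl fun j _ => by ring
  have c1 := PRV_cont Γ δ B D hD p.2 p.1 W hW
  have c2 := fun j => PRV_cont Γ δ B D hD p.2 p.1 (χ j) (hχ j)
  have c3 : ∀ j, Continuous fun x : ℝ => (s * ξ j) * (D.U (D.fl p.2 x p.1 • I) * χ j (D.fl p.2 x p.1 • I)) := fun j => continuous_const.mul (c2 j)
  have c4 : Continuous fun x : ℝ => ∑ j, (s * ξ j) * (D.U (D.fl p.2 x p.1 • I) * χ j (D.fl p.2 x p.1 • I)) := continuous_finsetSum _ fun j _ => c3 j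
  simp only [e1]
  rw [intervalIntegral.integral_add (c1.intervalIntegrable _ _) (c4.intervalIntegrable _ _),
    intervalIntegral.integral_finsetSum (fun j _ => (c3 j).intervalIntegrable _ _)]
  simp only [intervalIntegral.integral_const_mul]
  rw [mul_add, Finset.mul_sum, sub_eq_add_neg, ← Finset.sum_neg_distrib]
  congr 1
  exact Finset.sum_congr rfl fun j _ => by ring

theorem PRV_KB (Γ : Subgroup SL(2, ℝ)) (δ : ℝ) (B : ℕ → ℝ) (D : Dyn) (hD : OKD Γ δ B D) {J : ℕ} (χ : Fin J → ℍ → ℝ) (hχ : ∀ j, Continuous (χ j)) (ξ : Fin J → ℝ)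
    (W : ℍ → ℝ) (hW : Continuous W) (R s : ℝ) (ch : ℝ → ℝ) (A : Prm) :
    KB D ch A R (fun z => W z + s * VV χ ξ z) =
      stZ (fun p => ∑ a, ξ a * thP D (χ a) (-(R * s)) (A.tu R) p) (stZ (fun p => -thP D W R (A.tu R) p) (ub D ch A R)) := by
  funext p q
  unfold KB stZ
  rw [PRV_lin Γ δ B D hD χ hχ ξ W hW R s (A.tu R) p, ← mul_assoc, ← Complex.exp_add]
  congr 2
  push_cast
  ring

/-- Markov's inequality -/
theorem PRV_markov (J : ℕ) (G : (Fin J → ℝ) → ENNReal) (hG : Measurable G) (δ0 x : ℝ) (hδ0 : 0 < δ0)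
    (hx : ∫⁻ ξ, G ξ ∂PJ J ≤ ENNReal.ofReal x) :
    PJ J {ξ : Fin J → ℝ | ¬ G ξ ≤ ENNReal.ofReal (δ0 ^ 2)} ≤ ENNReal.ofReal (x / δ0 ^ 2) := by
  have h0 : ENNReal.ofReal (δ0 ^ 2) ≠ 0 := by
    rw [Ne, ENNReal.ofReal_eq_zero, not_le]
    positivity
  have h1 := meas_ge_le_lintegral_div (μ := PJ J) hG.aemeasurable h0 ENNReal.ofReal_ne_top
  have h2 : PJ J {ξ : Fin J → ℝ | ¬ G ξ ≤ ENNReal.ofReal (δ0 ^ 2)} ≤ PJ J {ξ | ENNReal.ofReal (δ0 ^ 2) ≤ G ξ} :=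
    measure_mono fun ξ hξ => (not_le.1 hξ).le
  refine h2.trans (h1.trans ?_)
  refine (ENNReal.div_le_div_right hx _).trans ?_
  rw [ENNReal.ofReal_div_of_pos (by positivity)]

/-- the numbers -/
theorem PRV_num (R ρ s Cc : ℝ) (hR : 1 ≤ R) (hρ : R ^ (-(1 / 1000) : ℝ) ≤ ρ) (hs0 : 0 ≤ s) (hs : s ≤ R ^ (-1 + 1 / 400 : ℝ)) (hCc : 0 ≤ Cc)
    (h : 1 + Cc ≤ R ^ (1 / 200 : ℝ)) :
    R ^ (1 / 200 : ℝ) / R + s * Cc ≤ R ^ (1 / 100 : ℝ) / R ∧ R ^ (1 / 200 : ℝ) / R + s * (Cc * ρ ^ (-2 : ℝ)) ≤ R ^ (1 / 100 : ℝ) / R := by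
  have hR0 : 0 < R := by linarith
  have hp : 0 < R ^ (-(1 / 1000) : ℝ) := Real.rpow_pos_of_pos hR0 _
  have hρ0 : 0 < ρ := lt_of_lt_of_le hp hρ
  have e1 : R ^ (1 / 200 : ℝ) / R = R ^ (-1 + 1 / 200 : ℝ) := by
    rw [add_comm, ← sub_eq_add_neg, Real.rpow_sub_one hR0.ne']
  have e2 : R ^ (1 / 100 : ℝ) / R = R ^ (1 / 200 : ℝ) * R ^ (-1 + 1 / 200 : ℝ) := by
    rw [← Real.rpow_add hR0, ← Real.rpow_sub_one hR0.ne']
    congr 1
    norm_num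
  have e3 : 0 < R ^ (-1 + 1 / 200 : ℝ) := Real.rpow_pos_of_pos hR0 _
  have key : ∀ x : ℝ, x ≤ R ^ (-1 + 1 / 200 : ℝ) → R ^ (1 / 200 : ℝ) / R + Cc * x ≤ R ^ (1 / 100 : ℝ) / R := by
    intro x hx
    rw [e1, e2]
    have a1 := mul_le_mul_of_nonneg_left hx hCc
    have a2 := mul_le_mul_of_nonneg_right h e3.le
    linarith
  constructor
  · have a1 : s ≤ R ^ (-1 + 1 / 200 : ℝ) := hs.trans (Real.rpow_le_rpow_of_exponent_le hR (by norm_num))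
    have a2 := key s a1
    linarith
  · have a0 : ρ ^ (-2 : ℝ) ≤ R ^ (1 / 500 : ℝ) := by
      have b1 := Real.rpow_le_rpow_of_nonpos hp hρ (by norm_num : (-2 : ℝ) ≤ 0)
      rw [← Real.rpow_mul hR0.le] at b1
      refine b1.trans_eq ?_
      congr 1
      norm_num
    have a1 : s * ρ ^ (-2 : ℝ) ≤ R ^ (-1 + 1 / 200 : ℝ) := by
      calc s * ρ ^ (-2 : ℝ) ≤ R ^ (-1 + 1 / 400 : ℝ) * R ^ (1 / 500 : ℝ) :=
            mul_le_mul hs a0 (Real.rpow_nonneg hρ0.le _) (Real.rpow_nonneg hR0.le _)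
        _ = R ^ (-1 + 1 / 400 + 1 / 500 : ℝ) := by rw [← Real.rpow_add hR0]
        _ ≤ R ^ (-1 + 1 / 200 : ℝ) := Real.rpow_le_rpow_of_exponent_le hR (by norm_num)
    have a2 := key _ a1
    linarith

theorem PRV_sm (hCKB : RPQ.CKB_stmt) (hLIP : RPQ.LIP_stmt) (Γ : Subgroup SL(2, ℝ)) (κ : ℝ → ℝ) (hκ : MO κ) : ∃ Cm : ℝ, 0 < Cm ∧
    ∀ (C0 R ρ s : ℝ) (J : ℕ) (p : Fin J → ℍ) (χ : Fin J → ℍ → ℝ) (W : ℍ → ℝ) (ξ : Fin J → ℝ), 0 ≤ C0 → 1 ≤ R → 1 + Cm * C0 ≤ R ^ (1 / 200 : ℝ) →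
      R ^ (-(1 / 1000) : ℝ) ≤ ρ → ρ ≤ 1 → 0 ≤ s → s ≤ R ^ (-1 + 1 / 400 : ℝ) → Net Γ κ ρ C0 J p χ → Sm Γ (R ^ (1 / 200 : ℝ)) R W → (∀ j, |ξ j| ≤ 1) →
        Sm Γ (R ^ (1 / 100 : ℝ)) R (fun z => W z + s * VV χ ξ z) := by
  obtain ⟨k0, hk0, h0⟩ := (hCKB κ hκ).2 0
  obtain ⟨k1, hk1, h1⟩ := (hCKB κ hκ).2 1
  refine ⟨max k0 k1, lt_max_of_lt_left hk0, ?_⟩
  intro C0 R ρ s J p χ W ξ hC0 hR hC hρ hρ1 hs0 hs hN hW hξ
  have hR0 : 0 < R := by linarith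
  have hp : 0 < R ^ (-(1 / 1000) : ℝ) := Real.rpow_pos_of_pos hR0 _
  have hρ0 : 0 < ρ := lt_of_lt_of_le hp hρ
  obtain ⟨V0, hV0, hb, he⟩ := hN.mol ξ hξ
  have hV : VV χ ξ = QU.conv (Pool.Agent.RPQ.mo κ ρ) V0 := funext he
  have hcd : QU.CD ∞ (VV χ ξ) := by
    rw [hV]
    exact (hCKB κ hκ).1 ρ V0 hρ0 hV0.1
  have b0 := h0 ρ C0 V0 hρ0 hρ1 hV0.1 hb
  have b1 := h1 ρ C0 V0 hρ0 hρ1 hV0.1 hb
  rw [← hV] at b0 b1
  have e0 : ρ ^ (-(2 * ((0 : ℕ) : ℝ))) = 1 := by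
    rw [Nat.cast_zero, mul_zero, neg_zero, Real.rpow_zero]
  have e1 : (-(2 * ((1 : ℕ) : ℝ))) = -2 := by norm_num
  rw [e0, mul_one] at b0
  rw [e1] at b1
  have c0 := (hLIP _ _ hcd).1 b0
  have c1 := (hLIP _ _ hcd).2 b1
  obtain ⟨n1, n2⟩ := PRV_num R ρ s (max k0 k1 * C0) hR hρ hs0 hs (mul_nonneg (hk0.le.trans (le_max_left _ _)) hC0) hC
  refine ⟨PRV_inv hN.inv ξ W hW.inv s, fun z => ?_, fun z w => ?_⟩
  · refine (abs_add_le _ _).trans (le_trans ?_ n1)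
    have d1 := hW.bd z
    have d2 : |s * VV χ ξ z| ≤ s * (max k0 k1 * C0) := by
      rw [abs_mul, abs_of_nonneg hs0]
      refine mul_le_mul_of_nonneg_left ((c0 z).trans ?_) hs0
      exact mul_le_mul_of_nonneg_right (le_max_left _ _) hC0
    linarith
  · have e2 : W z + s * VV χ ξ z - (W w + s * VV χ ξ w) = (W z - W w) + s * (VV χ ξ z - VV χ ξ w) := by ring
    rw [e2]
    refine (abs_add_le _ _).trans ?_
    have d1 := hW.lip z w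
    have hd : 0 ≤ dist z w := dist_nonneg
    have d2 : |s * (VV χ ξ z - VV χ ξ w)| ≤ s * (max k0 k1 * C0 * ρ ^ (-2 : ℝ)) * dist z w := by
      rw [abs_mul, abs_of_nonneg hs0, mul_assoc]
      refine mul_le_mul_of_nonneg_left ((c1 z w).trans ?_) hs0
      refine mul_le_mul_of_nonneg_right ?_ hd
      refine mul_le_mul_of_nonneg_right ?_ (Real.rpow_nonneg hρ0.le _)
      exact mul_le_mul_of_nonneg_right (le_max_right _ _) hC0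
    have d3 := mul_le_mul_of_nonneg_right n2 hd
    have e3 : (R ^ (1 / 200 : ℝ) / R + s * (max k0 k1 * C0 * ρ ^ (-2 : ℝ))) * dist z w =
        R ^ (1 / 200 : ℝ) / R * dist z w + s * (max k0 k1 * C0 * ρ ^ (-2 : ℝ)) * dist z w := by ring
    rw [e3] at d3
    linarith

theorem PRV_proof (hDTV : DTV_stmt) (hVHP : VHP_stmt) (hWXU : WXU_stmt) (hPIZ : PIZ_stmt) (hPSC : PSC_stmt) (hMTV : MTV_stmt) (hKSZ : KSZ_stmt)
    (hSNC : RPQ.SNC_stmt) (hCKB : RPQ.CKB_stmt) (hLIP : RPQ.LIP_stmt) : PRV_stmt := by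
  classical
  intro Γ F κ ch hΓ hF hκ hch
  obtain ⟨δD, CD, hδD, hCD, hDT⟩ := hDTV Γ F ch hΓ hF hch
  obtain ⟨δV, hδV, hVH⟩ := hVHP Γ F κ ch hΓ hF hch
  obtain ⟨δW, hδW, hWX⟩ := hWXU Γ F ch hΓ hF
  obtain ⟨δM, hδM, hMT⟩ := hMTV Γ hΓ
  obtain ⟨Cm, hCm, hSm⟩ := PRV_sm hCKB hLIP Γ κ hκ
  refine ⟨min (min δD δV) (min δW δM), lt_min (lt_min hδD hδV) (lt_min hδW hδM), ?_⟩
  intro h e hTF he
  obtain ⟨v0, C1, hv0, hC1, hVH2⟩ := hVH h (e / 4) hTF (by positivity)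
  refine ⟨v0, C1, hv0, hC1, ?_⟩
  intro T0 E0 C0 M0 B hT0 hE0 hC0 hM0
  obtain ⟨θ, b, L, n, N, A, a, R1, hθ, hb, hL, hn, hN, hLn, hMθ, hAdm, hNst, ha, hR1, hVH3⟩ := hVH2 CD T0 E0 (M0 + 1) B hCD hT0 hE0 (by linarith)
  obtain ⟨δ', R2, hδ', hR2, hDT2⟩ := hDT B A h (e / 4) b L n hAdm hTF (by positivity) hb hL hn
  obtain ⟨R3, hR3, hWX2⟩ := hWX N (M0 + 1) hN (by linarith)
  obtain ⟨Ad, hAd⟩ : ∃ Ad : Finset (List ℕ), ∀ l, l ∈ Ad ↔ l ∈ AdZ b L n :=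
    ⟨(PRV_fin b L n).toFinset, fun l => (PRV_fin b L n).mem_toFinset⟩
  obtain ⟨R4, hR4⟩ : ∃ R4 : ℝ, ∀ R, R4 ≤ R → 1 + Cm * C0 ≤ R ^ (1 / 200 : ℝ) := by
    have h1 := (tendsto_rpow_atTop (show (0 : ℝ) < 1 / 200 by norm_num)).eventually (eventually_ge_atTop (1 + Cm * C0))
    exact eventually_atTop.1 h1
  refine ⟨a, max R1 (max R2 (max R3 (max R4 ((Ad.card : ℝ) / δ' ^ 2)))), ha, hR1.trans (le_max_left _ _), ?_⟩
  intro R ρ s J p χ W D hR hρ1 hρ2 hs1 hs2 hNet hD hU hW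
  have hRa : R1 ≤ R := (le_max_left _ _).trans hR
  have hRx := (le_max_right _ _).trans hR
  have hRb : R2 ≤ R := (le_max_left _ _).trans hRx
  have hRy := (le_max_right _ _).trans hRx
  have hRc : R3 ≤ R := (le_max_left _ _).trans hRy
  have hRz := (le_max_right _ _).trans hRy
  have hRd : R4 ≤ R := (le_max_left _ _).trans hRz
  have hRe : (Ad.card : ℝ) / δ' ^ 2 ≤ R := (le_max_right _ _).trans hRz
  have hR3' : 3 ≤ R := hR1.trans hRa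
  have hR0 : 0 < R := by linarith
  have hlog : 1 ≤ Real.log R := by
    rw [Real.le_log_iff_exp_le hR0]
    have := Real.exp_one_lt_d9
    linarith
  have hp : 0 < R ^ (-(1 / 1000) : ℝ) := Real.rpow_pos_of_pos hR0 _
  have hρ0 : 0 < ρ := lt_of_lt_of_le hp hρ1
  have hρ3 : ρ ≤ 1 := hρ2.trans (Real.rpow_le_one_of_one_le_of_nonpos hlog (by linarith))
  have hs0 : 0 ≤ s := by
    have h1 : 0 < R * s := lt_of_lt_of_le (by positivity) hs1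
    exact (pos_of_mul_pos_right h1 hR0.le).le
  have hDD := PIV_mono Γ _ δD B D ((min_le_left _ _).trans (min_le_left _ _)) hD
  have hDV := PIV_mono Γ _ δV B D ((min_le_left _ _).trans (min_le_right _ _)) hD
  have hDW := PIV_mono Γ _ δW B D ((min_le_right _ _).trans (min_le_left _ _)) hD
  have hDM := PIV_mono Γ _ δM B D ((min_le_right _ _).trans (min_le_right _ _)) hD
  obtain ⟨ζ, c0, nc, hH⟩ := hVH3 R ρ (-(R * s)) C0 J p χ D hRa hρ0 hρ2 (by rw [abs_neg, abs_of_nonneg (by positivity)]; exact hs1) hNet hDV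
    (by
      have e1 : e / 4 / 2 = e / 8 := by ring
      rw [e1]
      exact hU)
  obtain ⟨-, -, -, -, hSm1, hSm2⟩ := hMT B D F h R (A.tu R) (e / 4) hDM hF hTF.inv
  obtain ⟨hWm, hWi, -⟩ := hMT B D F W R (A.tu R) (e / 4) hDM hF hW.inv
  have hχm := fun j => hMT B D F (χ j) (-(R * s)) (A.tu R) (e / 4) hDM hF (hNet.inv j)
  have hPS := hPSC Γ F R hΓ hF
  have := hPS.sf
  have hKW : KZ Γ dW (stZ (fun p => -thP D W R (A.tu R) p) (ub D ch A R)) :=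
    (hKSZ Γ _ (mW R) (DW F) dW hPS).1 _ _ hWm.neg (fun γ p => by rw [hWi γ p]) hH.ker
  -- the function of xi
  obtain ⟨G, hG⟩ : ∃ G : List ℕ → (Fin J → ℝ) → ENNReal, G = fun l ξ =>
    ∫⁻ x in DW F, ∫⁻ y in DW F, ‖perZ Γ (wdZ (mW R) (stZ (fun p => ∑ a, ξ a * thP D (χ a) (-(R * s)) (A.tu R) p)
      (stZ (fun p => -thP D W R (A.tu R) p) (ub D ch A R))) (SB D F h (e / 4) (A.tu R) R) l) x y‖ₑ ^ 2 ∂mW R ∂mW R := ⟨_, rfl⟩
  have hmeasure : ∀ l ∈ Ad, PJ J {ξ : Fin J → ℝ | ¬ G l ξ ≤ ENNReal.ofReal (δ' ^ 2)} ≤ ENNReal.ofReal (R ^ (-(M0 + 1)) / δ' ^ 2) := by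
    intro l hl
    have hl' := (hAd l).1 hl
    refine PRV_markov J (G l) ?_ δ' _ hδ' ?_
    · let _ : MeasurableSpace Γ := ⊤
      have : DiscreteMeasurableSpace Γ := ⟨fun _ => trivial⟩
      obtain ⟨-, -, hm⟩ := hPIZ Γ _ (mW R) (DW F) dW hPS J (fun a => thP D (χ a) (-(R * s)) (A.tu R)) _ (SB D F h (e / 4) (A.tu R) R) l
        (fun a => ⟨(hχm a).1, fun γ y => (hχm a).2.1 γ y⟩) hKW hSm1 hSm2 (PRV_ne hL hl')
      have hm2 : Measurable fun q : ((Fin J → ℝ) × (SL(2, ℝ) × ℝ)) × (SL(2, ℝ) × ℝ) =>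
          ‖perZ Γ (wdZ (mW R) (stZ (fun p => ∑ a, q.1.1 a * thP D (χ a) (-(R * s)) (A.tu R) p)
            (stZ (fun p => -thP D W R (A.tu R) p) (ub D ch A R))) (SB D F h (e / 4) (A.tu R) R) l) q.1.2 q.2‖ₑ ^ 2 := by
        have hm3 := (hm.comp (g := fun p : (Fin J → ℝ) × ((SL(2, ℝ) × ℝ) × (SL(2, ℝ) × ℝ)) => perZ Γ (wdZ (mW R) (stZ (fun y => ∑ a, p.1 a * thP D (χ a) (-(R * s)) (A.tu R) y)
            (stZ (fun p => -thP D W R (A.tu R) p) (ub D ch A R))) (SB D F h (e / 4) (A.tu R) R) l) p.2.1 p.2.2)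
          (f := fun q : ((Fin J → ℝ) × (SL(2, ℝ) × ℝ)) × (SL(2, ℝ) × ℝ) => (q.1.1, (q.1.2, q.2)))
          (by fun_prop))
        exact (hm3.enorm).pow_const 2
      rw [hG]
      exact (hm2.lintegral_prod_right' (ν := (mW R).restrict (DW F))).lintegral_prod_right' (ν := (mW R).restrict (DW F))
    · rw [hG]
      exact hWX2 B D A R θ ζ c0 b L n nc J χ (-(R * s)) (BadP D F h (e / 4) (A.tu R)) (SB D F h (e / 4) (A.tu R) R) (fun p => -thP D W R (A.tu R) p) l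
        hRc hDW hNet.inv hH hSm1 hSm2 (fun p hp => ⟨hp.1, hp.2⟩) hWm.neg (fun γ p => by rw [hWi γ p]) hb hL hl' (hNst l hl') hθ hMθ
  -- the bad set
  have hsub : {ξ : Fin J → ℝ | ¬ Gd Γ F h e R (fun z => Real.log (D.U z) + (W z + s * VV χ ξ z))} ⊆
      {ξ | ¬ ∀ j, |ξ j| ≤ 1} ∪ ⋃ l ∈ Ad, {ξ : Fin J → ℝ | ¬ G l ξ ≤ ENNReal.ofReal (δ' ^ 2)} := by
    intro ξ hbad
    by_contra hcon
    rw [Set.mem_union, not_or] at hcon
    obtain ⟨hc1, hc2⟩ := hcon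
    have hξ : ∀ j, |ξ j| ≤ 1 := not_not.1 hc1
    apply hbad
    have hws : ∀ l ∈ AdZ b L n, G l ξ ≤ ENNReal.ofReal (δ' ^ 2) := by
      intro l hl
      by_contra h1
      exact hc2 (Set.mem_biUnion ((hAd l).2 hl) h1)
    intro F' μ φ hF' hnear hμ hμ1 hφ
    have hEg : EgT Γ D.U R (fun z => W z + s * VV χ ξ z) F' μ φ :=
      ⟨hSm C0 R ρ s J p χ W ξ hC0 (by linarith) (hR4 R hRd) hρ1 hρ3 hs0 hs2 hNet hW hξ, hF', hnear, hμ, hμ1, hφ⟩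
    have h1 := hDT2 R D (fun z => W z + s * VV χ ξ z) F' μ φ hRb hDD hEg (fun l hl => by
      have h2 := hws l hl
      unfold HSv
      rw [PRV_KB Γ _ B D hD χ (fun j => (hNet.inv j).1) ξ W hW.inv.1 R s ch A]
      rw [hG] at h2
      exact h2)
    refine h1.trans ?_
    refine mul_le_mul_of_nonneg_right (by linarith) ?_
    unfold nn
    exact integral_nonneg fun z => by positivity
  have hnull : PJ J {ξ : Fin J → ℝ | ¬ ∀ j, |ξ j| ≤ 1} = 0 := (hSNC J).2.1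
  refine (measure_mono hsub).trans ((measure_union_le _ _).trans ?_)
  rw [hnull, zero_add]
  have hsum : PJ J (⋃ l ∈ Ad, {ξ : Fin J → ℝ | ¬ G l ξ ≤ ENNReal.ofReal (δ' ^ 2)}) ≤
      ∑ l ∈ Ad, ENNReal.ofReal (R ^ (-(M0 + 1)) / δ' ^ 2) :=
    (measure_biUnion_finset_le _ _).trans (Finset.sum_le_sum fun l hl => hmeasure l hl)
  refine hsum.trans ?_
  rw [Finset.sum_const, nsmul_eq_mul, ← ENNReal.ofReal_natCast, ← ENNReal.ofReal_mul (by positivity)]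
  apply ENNReal.ofReal_le_ofReal
  have h1 : R ^ (-M0) = R ^ (-(M0 + 1)) * R := by
    rw [← Real.rpow_add_one hR0.ne']
    congr 1
    ring
  rw [h1]
  have h2 : 0 < R ^ (-(M0 + 1)) := Real.rpow_pos_of_pos hR0 _
  calc (Ad.card : ℝ) * (R ^ (-(M0 + 1)) / δ' ^ 2) = R ^ (-(M0 + 1)) * ((Ad.card : ℝ) / δ' ^ 2) := by ring
    _ ≤ R ^ (-(M0 + 1)) * R := mul_le_mul_of_nonneg_left hRe h2.le

end Pool.Agent.VQ
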