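import Pool.Agent.helper11.VQ.Spec3c

/-!
# Project VQ (MP_07c750_an): the row WXV with the right order of the constants

`WXU_stmt` is `WXV_stmt` with `δ0` chosen BEFORE `N` and `M0` (row PRV needs this: its `δ0` is chosen before the test function, and `N` depends on the test function). The proof is the same: `δ0` comes from MTV only, `R0` depends on `Γ`, `F`, `N`, `M0`.
-/

set_option autoImplicit false

open scoped MatrixGroups ContDiff Topology UpperHalfPlane ComplexConjugate ENNReal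
open UpperHalfPlane MeasureTheory Filter Set

namespace Pool.Agent.VQ

open Pool.Agent.RS
open Pool.Agent.RPQ (CEig mean VV IsOp IsMul OProj wrd PJ nst mks MO Net Cl)

noncomputable section

/-- **Row WXU** (= WXV with `δ0` before `N`, `M0`) -/
def WXU_stmt : Prop := ∀ (Γ : Subgroup SL(2, ℝ)) (F : Set ℍ) (ch : ℝ → ℝ), QU.SurfaceGroup Γ → QU.NiceDom Γ F → ∃ δ0 : ℝ, 0 < δ0 ∧ ∀ (N : ℕ) (M0 : ℝ), 1 ≤ N → 0 ≤ M0 → ∃ R0 : ℝ, 3 ≤ R0 ∧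
  ∀ (B : ℕ → ℝ) (D : Dyn) (A : Prm) (R θ ζ c0 : ℝ) (b L n nc J : ℕ) (χ : Fin J → ℍ → ℝ) (K : ℝ) (S S' : Set (SL(2, ℝ) × ℝ)) (W' : SL(2, ℝ) × ℝ → ℝ) (l : List ℕ), R0 ≤ R → OKD Γ δ0 B D → (∀ a, QU.Inv Γ (χ a)) →
    VH Γ ch D A R θ ζ c0 M0 N b nc J χ K S → MeasurableSet S' → InvS Γ S' → (∀ p ∈ S', p ∈ S ∧ |p.2| ≤ R ^ (-(1 / 4) : ℝ)) → Measurable W' → (∀ (γ : Γ) p, W' (γ • p) = W' p) →
    1 ≤ b → 1 ≤ L → l ∈ AdZ b L n → nst l ≤ N → 0 < θ → M0 + 3 ≤ θ * L →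
      ∫⁻ ξ, ∫⁻ x in DW F, ∫⁻ y in DW F, ‖perZ Γ (wdZ (mW R) (stZ (fun p => ∑ a, ξ a * thP D (χ a) K (A.tu R) p) (stZ W' (ub D ch A R))) S' l) x y‖ₑ ^ 2 ∂mW R ∂mW R ∂PJ J ≤ ENNReal.ofReal (R ^ (-M0))

theorem WXU_WXV (h : WXU_stmt) : WXV_stmt := by
  intro Γ F ch N M0 hΓ hF hN hM
  obtain ⟨δ0, hδ, h1⟩ := h Γ F ch hΓ hF
  obtain ⟨R0, hR0, h2⟩ := h1 N M0 hN hM
  exact ⟨δ0, R0, hδ, hR0, h2⟩

end

end Pool.Agent.VQ
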